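import Pool.Agent.H964.CW.Stm2

/-! # Project CW (helper964), BK21: the logarithm of the mass of a block from a good weight -/

set_option autoImplicit false

open MeasureTheory ProbabilityTheory Filter Finset

namespace Pool.Agent.H707.CW

open Pool.Agent.H964.QC Pool.Agent.H964.CW

theorem e0_pos : 0 < e0 := by unfold e0; positivity

theorem e0_le : e0 ≤ 1 / 1000 := by unfold e0; norm_num

/-- asymptotics in `L` -/
theorem asyL (C1 C2 C4 C5 : ℝ) : ∃ L0 : ℝ, 1 ≤ L0 ∧ ∀ x : ℝ, L0 ≤ x →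
    C2 * 11 ^ 8 ≤ x ^ (4 * e0) ∧ C1 ≤ x ^ (1 - 2 * e0) ∧ C1 ≤ x ^ (2 - 4 * e0) ∧
    48 * C1 ≤ x ^ (1 / 2 - 44 * e0) ∧ 3 * C4 * (x ^ (3 / 2 : ℝ) * Real.exp (-(x ^ e0))) ≤ 1 ∧
    4 * C1 ≤ x ^ e0 ∧ 4 * C5 * (2 * C1 + C1 ^ 2 + 1) ≤ x ^ (1 / 2 - e0) := by
  have he := e0_pos
  have he' := e0_le
  have h1 : ∀ K a : ℝ, 0 < a → ∀ᶠ x : ℝ in atTop, K ≤ x ^ a := fun K a ha =>
    (tendsto_rpow_atTop ha).eventually_ge_atTop K
  have h2 : ∀ᶠ x : ℝ in atTop, 3 * C4 * (x ^ (3 / 2 : ℝ) * Real.exp (-(x ^ e0))) ≤ 1 := by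
    have h3 := (tendsto_rpow_mul_exp_neg_mul_atTop_nhds_zero (3 / (2 * e0)) 1 one_pos).comp
      (tendsto_rpow_atTop he)
    have h4 := (h3.const_mul (3 * C4)).eventually_le_const (by simp : 3 * C4 * 0 < 1)
    filter_upwards [h4, eventually_ge_atTop 0] with x hx hx0
    refine le_trans (le_of_eq ?_) hx
    simp only [Function.comp]
    rw [← Real.rpow_mul hx0, show e0 * (3 / (2 * e0)) = 3 / 2 by field_simp]
    ring_nf
  have h := (h1 (C2 * 11 ^ 8) (4 * e0) (by positivity)).and ((h1 C1 (1 - 2 * e0) (by linarith)).and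
    ((h1 C1 (2 - 4 * e0) (by linarith)).and ((h1 (48 * C1) (1 / 2 - 44 * e0) (by linarith)).and
    (h2.and ((h1 (4 * C1) e0 he).and (h1 (4 * C5 * (2 * C1 + C1 ^ 2 + 1)) (1 / 2 - e0)
      (by linarith)))))))
  obtain ⟨L0, hL0⟩ := eventually_atTop.1 h
  exact ⟨max L0 1, le_max_right _ _, fun x hx => hL0 x ((le_max_left _ _).trans hx)⟩

/-- asymptotics in `1 / s2` -/
theorem asyZ (C2 C3 : ℝ) : ∃ L0 : ℝ, 1 ≤ L0 ∧ ∀ z : ℝ, L0 ≤ z →
    C2 * Real.exp (z ^ (1 / 40 : ℝ)) * z ≤ Real.exp (z ^ (1 / 20 : ℝ) / 2 - 1 / 4) ∧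
    z ^ (1 / 20 : ℝ) ≤ Real.exp (z ^ (1 / 20 : ℝ) / 4 - 1 / 8) ∧
    3 * z ^ (3 / 2 : ℝ) * ((C3 * z) ^ 100 *
      Real.exp (-(Real.exp (z ^ (1 / 20 : ℝ) / 40 - 1 / 80)) / 2)) ≤ 1 := by
  have hq : Tendsto (fun z : ℝ => z ^ (1 / 20 : ℝ)) atTop atTop := tendsto_rpow_atTop (by norm_num)
  -- statements in q
  have k : ∀ (K b : ℝ) (n : ℕ), 0 < b → ∀ᶠ q : ℝ in atTop, K * (q ^ n * Real.exp (-(b * q))) ≤ 1 := by
    intro K b n hb
    have h3 := tendsto_rpow_mul_exp_neg_mul_atTop_nhds_zero n b hb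
    have h4 := (h3.const_mul K).eventually_le_const (by simp : K * 0 < 1)
    filter_upwards [h4] with q hq
    refine le_trans (le_of_eq ?_) hq
    rw [Real.rpow_natCast]
    ring_nf
  have g1 : ∀ᶠ q : ℝ in atTop, C2 * Real.exp (q ^ (1 / 2 : ℝ)) * q ^ 20 ≤ Real.exp (q / 2 - 1 / 4) := by
    filter_upwards [k (max C2 0 * Real.exp (1 / 4)) (1 / 4) 20 (by norm_num), eventually_ge_atTop 16]
      with q h1 h2
    have h3 : q ^ (1 / 2 : ℝ) ≤ q / 4 := by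
      rw [← Real.sqrt_eq_rpow]
      rw [Real.sqrt_le_left (by linarith)]
      nlinarith
    have h4 : 0 < q := by linarith
    calc C2 * Real.exp (q ^ (1 / 2 : ℝ)) * q ^ 20 ≤ max C2 0 * Real.exp (q / 4) * q ^ 20 := by
          gcongr
          · exact le_max_left _ _
      _ = (max C2 0 * Real.exp (1 / 4) * (q ^ 20 * Real.exp (-(1 / 4 * q)))) *
          Real.exp (q / 2 - 1 / 4) := by
          have : Real.exp (q / 4) = Real.exp (1 / 4) * Real.exp (-(1 / 4 * q)) *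
              Real.exp (q / 2 - 1 / 4) := by
            rw [← Real.exp_add, ← Real.exp_add]; congr 1; ring
          rw [this]; ring
      _ ≤ 1 * Real.exp (q / 2 - 1 / 4) := by gcongr
      _ = _ := one_mul _
  have g2 : ∀ᶠ q : ℝ in atTop, q ≤ Real.exp (q / 4 - 1 / 8) := by
    filter_upwards [k (Real.exp (1 / 8)) (1 / 4) 1 (by norm_num)] with q h1
    have : Real.exp (q / 4 - 1 / 8) * (Real.exp (1 / 8) * (q ^ 1 * Real.exp (-(1 / 4 * q)))) = q := by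
      have : Real.exp (q / 4 - 1 / 8) * Real.exp (1 / 8) * Real.exp (-(1 / 4 * q)) = 1 := by
        rw [← Real.exp_add, ← Real.exp_add, Real.exp_eq_one_iff]; ring
      calc _ = (Real.exp (q / 4 - 1 / 8) * Real.exp (1 / 8) * Real.exp (-(1 / 4 * q))) * q := by ring
        _ = q := by rw [this, one_mul]
    calc q = Real.exp (q / 4 - 1 / 8) * (Real.exp (1 / 8) * (q ^ 1 * Real.exp (-(1 / 4 * q)))) := this.symm
      _ ≤ Real.exp (q / 4 - 1 / 8) * 1 := by gcongr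
      _ = _ := mul_one _
  have g3 : ∀ᶠ q : ℝ in atTop, 3 * q ^ 30 * ((C3 * q ^ 20) ^ 100 *
      Real.exp (-(Real.exp (q / 40 - 1 / 80)) / 2)) ≤ 1 := by
    filter_upwards [k (2 * Real.exp (1 / 80)) (1 / 40) 1 (by norm_num), k (3 * C3 ^ 100) 1 2030 one_pos,
      eventually_ge_atTop (0 : ℝ)] with q h1 h2 hq0
    have h3 : 2 * q ≤ Real.exp (q / 40 - 1 / 80) := by
      have : Real.exp (q / 40 - 1 / 80) * (2 * Real.exp (1 / 80) * (q ^ 1 * Real.exp (-(1 / 40 * q)))) =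
          2 * q := by
        have : Real.exp (q / 40 - 1 / 80) * Real.exp (1 / 80) * Real.exp (-(1 / 40 * q)) = 1 := by
          rw [← Real.exp_add, ← Real.exp_add, Real.exp_eq_one_iff]; ring
        calc _ = (Real.exp (q / 40 - 1 / 80) * Real.exp (1 / 80) * Real.exp (-(1 / 40 * q))) *
            (2 * q) := by ring
          _ = 2 * q := by rw [this, one_mul]
      calc 2 * q = _ := this.symm
        _ ≤ Real.exp (q / 40 - 1 / 80) * 1 := by gcongr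
        _ = _ := mul_one _
    have hC : 0 ≤ C3 ^ 100 := by positivity
    calc 3 * q ^ 30 * ((C3 * q ^ 20) ^ 100 * Real.exp (-(Real.exp (q / 40 - 1 / 80)) / 2))
        = 3 * C3 ^ 100 * (q ^ 2030 * Real.exp (-(Real.exp (q / 40 - 1 / 80)) / 2)) := by
          rw [mul_pow, ← pow_mul]; ring
      _ ≤ 3 * C3 ^ 100 * (q ^ 2030 * Real.exp (-(1 * q))) := by
          have h5 : (0 : ℝ) ≤ q ^ 2030 := pow_nonneg hq0 _
          have h6 : Real.exp (-(Real.exp (q / 40 - 1 / 80)) / 2) ≤ Real.exp (-(1 * q)) := by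
            rw [Real.exp_le_exp]; linarith
          have := mul_le_mul_of_nonneg_left h6 h5
          exact mul_le_mul_of_nonneg_left this (mul_nonneg (by norm_num) hC)
      _ ≤ 1 := h2
  obtain ⟨L0, hL0⟩ := eventually_atTop.1 ((hq.eventually g1).and ((hq.eventually g2).and
    (hq.eventually g3)))
  refine ⟨max L0 1, le_max_right _ _, fun z hz => ?_⟩
  obtain ⟨a1, a2, a3⟩ := hL0 z ((le_max_left _ _).trans hz)
  have hz0 : 0 ≤ z := zero_le_one.trans ((le_max_right _ _).trans hz)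
  have e1 : (z ^ (1 / 20 : ℝ)) ^ (1 / 2 : ℝ) = z ^ (1 / 40 : ℝ) := by
    rw [← Real.rpow_mul hz0]; norm_num
  have e2 : (z ^ (1 / 20 : ℝ)) ^ 20 = z := by
    rw [← Real.rpow_natCast, ← Real.rpow_mul hz0]; norm_num
  have e3 : (z ^ (1 / 20 : ℝ)) ^ 30 = z ^ (3 / 2 : ℝ) := by
    rw [← Real.rpow_natCast, ← Real.rpow_mul hz0]; norm_num
  rw [e1, e2] at a1
  rw [e2, e3] at a3
  exact ⟨a1, a2, a3⟩

/-- facts on the times -/
theorem times (hRR : S_RR) {s2 L L' : ℝ} {t T : ℕ} (hs2 : 0 < s2) (hL : L = 1 / s2 - RR t)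
    (hL' : L' = 1 / s2 - RR (t + T)) (_ : 1 ≤ L') (hRt : (1 / s2) ^ (1 / 20 : ℝ) ≤ RR t) :
    L' ≤ L ∧ L ≤ 1 / s2 ∧ 1 ≤ t ∧ Real.exp (2 * (1 / s2) ^ (1 / 20 : ℝ) - 1) ≤ (t : ℝ) ∧
    RR T ≤ RR (t + T) ∧ Real.log (1 + (T : ℝ) / t) ≤ 1 + 4 * (RR (t + T) - RR t) := by
  obtain ⟨-, -, -, -, -, hlow, hup⟩ := hRR
  have hmono : ∀ a b : ℕ, a ≤ b → RR a ≤ RR b := by
    intro a b hab
    have h1 := hlow a b hab
    have h2 : (1 : ℝ) ≤ ((b : ℝ) + 1) / ((a : ℝ) + 1) := by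
      rw [one_le_div (by positivity)]
      have : (a : ℝ) ≤ b := by exact_mod_cast hab
      linarith
    have h3 := Real.log_nonneg h2
    linarith
  have h1 := hmono t (t + T) (Nat.le_add_right _ _)
  have h2 := hmono T (t + T) (Nat.le_add_left _ _)
  have hz : 0 < 1 / s2 := by positivity
  have h3 : 0 < (1 / s2) ^ (1 / 20 : ℝ) := Real.rpow_pos_of_pos hz _
  have h4 : 1 ≤ t := by
    rcases Nat.eq_zero_or_pos t with h | h
    · rw [h] at hRt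
      have : RR 0 = 0 := by simp [RR]
      rw [this] at hRt
      linarith
    · exact h
  have h5 := hup t h4
  have ht0 : (0 : ℝ) < t := by exact_mod_cast h4
  have ht1 : (1 : ℝ) ≤ t := by exact_mod_cast h4
  refine ⟨by linarith, by linarith, h4, ?_, h2, ?_⟩
  · rw [← Real.le_log_iff_exp_le ht0]
    linarith
  · have h6 := hlow t (t + T) (Nat.le_add_right _ _)
    push_cast at h6
    have h7 : 1 + (T : ℝ) / t ≤ 2 * (((t : ℝ) + T + 1) / ((t : ℝ) + 1)) := by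
      have hT : (0 : ℝ) ≤ T := Nat.cast_nonneg _
      rw [← sub_nonneg]
      have : 2 * (((t : ℝ) + T + 1) / ((t : ℝ) + 1)) - (1 + (T : ℝ) / t) =
          (((t : ℝ) - 1) * T + t * (t + 1)) / (t * (t + 1)) := by
        field_simp
        ring
      rw [this]
      have : 0 ≤ ((t : ℝ) - 1) * T := mul_nonneg (by linarith) hT
      positivity
    have h8 : 0 < 1 + (T : ℝ) / t := by positivity
    have h9 : Real.log (1 + (T : ℝ) / t) ≤ Real.log 2 + Real.log (((t : ℝ) + T + 1) / ((t : ℝ) + 1)) := by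
      rw [← Real.log_mul (by norm_num) (by positivity)]
      exact Real.log_le_log h8 h7
    have h10 : Real.log 2 ≤ 1 := by
      have := Real.log_two_lt_d9
      linarith
    linarith

/-- **BK21.** -/
theorem t_BK21 : S_BK21 := by
  intro hLTB hAP hTLI hLG hMEAS hM2 hDUAL hRR hIND hBK1 C0 κ hC0 hκ
  obtain ⟨C1, L1, hC1, hL1, hB⟩ := hBK1 C0 κ hC0 hκ
  obtain ⟨C2, hC2, hT⟩ := hLTB C0 0 hC0 le_rfl
  obtain ⟨C3, hC3, hP⟩ := hAP C0 0 hC0 le_rfl
  obtain ⟨C4, hC4, hI⟩ := hTLI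
  obtain ⟨C5, hC5, hG⟩ := hLG
  obtain ⟨L2, hL2, hasy⟩ := asyL C1 C2 C4 C5
  obtain ⟨L3, hL3, hasz⟩ := asyZ C2 C3
  refine ⟨3 * (C5 * C1) + C1 + 2, max (max L1 L2) (max L3 (max C2 C3)), ?_, ?_, ?_⟩
  · nlinarith
  · exact hL1.trans ((le_max_left _ _).trans (le_max_left _ _))
  intro N0 M _ W hW Ω _ P _ s2 η w t T L L' hs2 hη hL hL' hL0 hRt hRT hN hGood
  have he := e0_pos
  have he' := e0_le
  have hLL1 : L1 ≤ L' := (le_max_left _ _).trans ((le_max_left _ _).trans hL0)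
  have hLL2 : L2 ≤ L' := (le_max_right _ _).trans ((le_max_left _ _).trans hL0)
  have hLL3 : L3 ≤ L' := (le_max_left _ _).trans ((le_max_right _ _).trans hL0)
  have hLC2 : C2 ≤ L' := (le_max_left _ _).trans ((le_max_right _ _).trans ((le_max_right _ _).trans hL0))
  have hLC3 : C3 ≤ L' := (le_max_right _ _).trans ((le_max_right _ _).trans ((le_max_right _ _).trans hL0))
  have hL'1 : 1 ≤ L' := hL2.trans hLL2
  obtain ⟨tm1, tm2, tm3, tm4, tm5, tm6⟩ := times hRR hs2 hL hL' hL'1 hRt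
  have hL1' : 1 ≤ L := hL'1.trans tm1
  have hLpos : 0 < L := by linarith
  have hz : 0 < 1 / s2 := by positivity
  have hNoise : Noise P s2 κ η := hη.1
  have hTN : T ≤ N0 := by omega
  have htTN : t + T ≤ N0 := by omega
  obtain ⟨b1, b2, b3⟩ := hB (ZMod M × ZMod M) N0 W Ω P s2 η w t T L L' hs2 hNoise hL hL' hLL1 hRt hRT hN
    hGood
  obtain ⟨a1, a2, a3, a4, a5, a6, a7⟩ := hasy L (hLL2.trans tm1)
  obtain ⟨z1, z2, z3⟩ := hasz (1 / s2) (hLL3.trans (tm1.trans tm2))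
  have hs3 : s2 ≤ 1 / C3 := by
    rw [le_div_iff₀ (by linarith), ← le_div_iff₀' hs2]
    exact hLC3.trans (tm1.trans tm2)
  have hs2' : s2 ≤ 1 / C2 := by
    rw [le_div_iff₀ (by linarith), ← le_div_iff₀' hs2]
    exact hLC2.trans (tm1.trans tm2)
  -- the random variable
  obtain ⟨-, mpos, -, mZ, -, -, mcfg, mL4, -, -, -⟩ := hMEAS (ZMod M × ZMod M) C0 N0 W Ω P s2 κ η hNoise
  have hXZ : ∀ x : ℕ → ZMod M × ZMod M → ℝ, 1 + XX W w T x T = ∑ y, w y * Zr W x T y := by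
    intro x
    rw [(hDUAL (ZMod M × ZMod M) C0 N0 W x w 0 T).2.2.1, hGood.sum]
    ring
  set X : Ω → ℝ := fun ω => XX W w T (cfg η ω) T with hX
  have hXZ' : ∀ ω, 1 + X ω = ∑ y, w y * Zr W (cfg η ω) T y := fun ω => hXZ _
  have hpos : ∀ ω, 0 < 1 + X ω := by
    intro ω
    rw [hXZ']
    have hex : ∃ y, w y ≠ 0 := by
      by_contra h
      push Not at h
      have := hGood.sum
      simp [h] at this
    obtain ⟨y, hy⟩ := hex
    refine Finset.sum_pos' (fun y _ => mul_nonneg (hGood.nonneg y) (mpos _ T y fun n v => hNoise.gt n v ω).le)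
      ⟨y, Finset.mem_univ _, mul_pos (lt_of_le_of_ne (hGood.nonneg y) (Ne.symm hy))
        (mpos _ T y fun n v => hNoise.gt n v ω)⟩
  have hXgt : ∀ ω, -1 < X ω := fun ω => by linarith [hpos ω]
  have hXeq : X = fun ω => (∑ y, w y * Zr W (cfg η ω) T y) - 1 := by
    funext ω
    linarith [hXZ' ω]
  have hXm : Measurable X := by
    rw [hXeq]
    refine Measurable.sub_const (Finset.measurable_sum _ fun y _ => ?_) 1
    exact ((mZ T y).comp mcfg).const_mul _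
  have hX4 : MemLp X 4 P := by
    rw [hXeq]
    refine MemLp.sub (memLp_finsetSum _ fun y _ => (mL4 T y).const_mul _) (memLp_const 1)
  have hXi : Integrable (fun ω => X ω ^ 4) P := by
    have h := MemLp.integrable_norm_pow (p := 4) (f := X) (μ := P) (by exact_mod_cast hX4) (by norm_num)
    refine h.congr (Filter.Eventually.of_forall fun ω => ?_)
    simp only [Real.norm_eq_abs]
    exact Even.pow_abs ⟨2, rfl⟩ _
  have hX0 : ∫ ω, X ω ∂P = 0 :=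
    (hM2 (ZMod M × ZMod M) C0 N0 W Ω P s2 κ η hs2.le hNoise w hGood.nonneg T hTN).1
  have hlg : ∀ ω, lgX W T w (cfg η ω) = Real.log (1 + X ω) := fun ω => rfl
  have hlgZ : (fun ω => lgZ W T w (cfg η ω)) = fun ω => Real.log (1 + X ω) := by
    funext ω
    rw [hXZ' ω]
    rfl
  -- the a priori bound
  obtain ⟨p1, p2⟩ := hP N0 M W hW Ω P s2 κ η w t T hs2 hs3 hη hGood.nonneg hGood.sum
    (fun x hx => hW.cls_rng t x (hGood.cls x hx)) htTN (by
      have : RR (t + T) ≤ 1 / s2 := by linarith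
      linarith)
  rw [hlgZ] at p1
  have p2' : ∫ ω, (Real.log (1 + X ω)) ^ 4 ∂P ≤ (C3 / s2) ^ 200 := by
    refine le_trans (le_of_eq ?_) p2
    congr 1
    funext ω
    rw [← congrFun hlgZ ω]
  -- powers of `L`
  have hzq1 : 1 ≤ 1 / s2 := hL1'.trans tm2
  have hzq : L ^ e0 ≤ (1 / s2) ^ (1 / 40 : ℝ) :=
    (Real.rpow_le_rpow hLpos.le tm2 he.le).trans
      (Real.rpow_le_rpow_of_exponent_le hzq1 (by linarith))
  have hq20 : L ^ (20 * e0) ≤ (1 / s2) ^ (1 / 20 : ℝ) :=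
    (Real.rpow_le_rpow hLpos.le tm2 (by positivity)).trans
      (Real.rpow_le_rpow_of_exponent_le hzq1 (by linarith))
  have ht0 : (0 : ℝ) < t := by exact_mod_cast tm3
  have htp : ∀ a : ℝ, 0 ≤ a → Real.exp ((2 * (1 / s2) ^ (1 / 20 : ℝ) - 1) * a) ≤ (t : ℝ) ^ a := by
    intro a ha
    rw [Real.exp_mul]
    exact Real.rpow_le_rpow (Real.exp_pos _).le tm4 ha
  have hLe1 : 1 ≤ L ^ e0 := Real.one_le_rpow hL1' he.le
  have hL2e : L ^ e0 ≤ L ^ (2 * e0) := Real.rpow_le_rpow_of_exponent_le hL1' (by linarith)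
  -- the tail
  have hu0 : 1 ≤ L ^ (20 * e0) := Real.one_le_rpow hL1' (by positivity)
  have hu01 : L ^ (20 * e0) ≤ (t : ℝ) ^ (1 / 8 : ℝ) := by
    refine hq20.trans (z2.trans (le_trans (le_of_eq ?_) (htp (1 / 8) (by norm_num))))
    congr 1
    ring
  have htail : ∀ u, L ^ (20 * e0) ≤ u → u ≤ (t : ℝ) ^ (1 / 8 : ℝ) →
      P.real {ω | u < -Real.log (1 + X ω)} ≤ Real.exp (-(u ^ (1 / 10 : ℝ))) := by
    intro u hu hu'
    have hu1 : 0 < u := by linarith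
    have hset : {ω | u < -Real.log (1 + X ω)} =
        {ω | ∑ z, w z * Zr W (cfg η ω) T z < Real.exp (-u)} := by
      ext ω
      simp only [Set.mem_ofPred_eq]
      rw [← hXZ' ω, ← Real.log_lt_iff_lt_exp (hpos ω)]
      constructor <;> intro h <;> linarith
    rw [hset]
    refine hT N0 M W hW Ω P s2 κ η w t T (Real.exp (L ^ e0)) u hs2 hs2' hNoise tm3
      (Real.one_le_exp (by positivity)) htTN hGood (by linarith) ?_ ?_
    · rw [Real.log_exp]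
      have h1 : 1 + L ^ e0 + Real.log (1 + (T : ℝ) / t) ≤ 11 * L ^ (2 * e0) := by linarith
      have h0 : 0 ≤ Real.log (1 + (T : ℝ) / t) := Real.log_nonneg (by
        have : 0 ≤ (T : ℝ) / t := by positivity
        linarith)
      calc C2 * (1 + L ^ e0 + Real.log (1 + (T : ℝ) / t)) ^ 8 ≤ C2 * (11 * L ^ (2 * e0)) ^ 8 := by
            gcongr
        _ = C2 * 11 ^ 8 * L ^ (16 * e0) := by
            rw [mul_pow, ← Real.rpow_natCast (L ^ (2 * e0)), ← Real.rpow_mul hLpos.le,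
              show 2 * e0 * ((8 : ℕ) : ℝ) = 16 * e0 by push_cast; ring]
            ring
        _ ≤ L ^ (4 * e0) * L ^ (16 * e0) := by gcongr
        _ = L ^ (20 * e0) := by rw [← Real.rpow_add hLpos]; congr 1; ring
        _ ≤ u := hu
    · have h1 : C2 * Real.exp (L ^ e0) * (1 / s2) ≤ (t : ℝ) ^ (1 / 4 : ℝ) := by
        calc C2 * Real.exp (L ^ e0) * (1 / s2) ≤ C2 * Real.exp ((1 / s2) ^ (1 / 40 : ℝ)) * (1 / s2) := by
              gcongr
          _ ≤ Real.exp ((1 / s2) ^ (1 / 20 : ℝ) / 2 - 1 / 4) := z1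
          _ = Real.exp ((2 * (1 / s2) ^ (1 / 20 : ℝ) - 1) * (1 / 4)) := by congr 1; ring
          _ ≤ _ := htp (1 / 4) (by norm_num)
      have h2 : u ^ 2 ≤ (t : ℝ) ^ (1 / 4 : ℝ) := by
        calc u ^ 2 ≤ ((t : ℝ) ^ (1 / 8 : ℝ)) ^ 2 := by gcongr
          _ = (t : ℝ) ^ (1 / 4 : ℝ) := by
            rw [← Real.rpow_natCast, ← Real.rpow_mul ht0.le]
            norm_num
      calc C2 * Real.exp (L ^ e0) * u ^ 2 / s2 = C2 * Real.exp (L ^ e0) * (1 / s2) * u ^ 2 := by ring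
        _ ≤ (t : ℝ) ^ (1 / 4 : ℝ) * (t : ℝ) ^ (1 / 4 : ℝ) := by gcongr
        _ = Real.sqrt t := by
          rw [← Real.rpow_add ht0, Real.sqrt_eq_rpow]
          norm_num
  have hAm : MeasurableSet {ω | X ω < -(1 / 2)} := measurableSet_lt hXm measurable_const
  have hPA : P.real {ω | X ω < -(1 / 2)} ≤ 16 * (C1 * L ^ (4 * e0 - 2)) := by
    have h1 := mul_meas_ge_le_integral_of_nonneg (μ := P) (f := fun ω => X ω ^ 4)
      (Filter.Eventually.of_forall fun ω => by positivity) hXi (1 / 16)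
    have h2 : P.real {ω | X ω < -(1 / 2)} ≤ P.real {ω | 1 / 16 ≤ X ω ^ 4} := by
      refine measureReal_mono ?_ (measure_ne_top _ _)
      intro ω hω
      simp only [Set.mem_ofPred_eq] at hω ⊢
      have h3 : 1 / 4 ≤ X ω ^ 2 := by nlinarith
      calc (1 / 16 : ℝ) = (1 / 4) ^ 2 := by norm_num
        _ ≤ (X ω ^ 2) ^ 2 := by gcongr
        _ = X ω ^ 4 := by ring
    linarith
  have hLn32 : (0 : ℝ) < L ^ (-(3 / 2) : ℝ) := Real.rpow_pos_of_pos hLpos _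
  have hτ : ∫ ω in {ω | X ω < -(1 / 2)}, (Real.log (1 + X ω)) ^ 2 ∂P ≤ L ^ (-(3 / 2) : ℝ) := by
    have h1 := hI Ω P (fun ω => -Real.log (1 + X ω)) ((C3 / s2) ^ 200) (L ^ (20 * e0))
      ((t : ℝ) ^ (1 / 8 : ℝ)) {ω | X ω < -(1 / 2)} p1.neg (by
        refine le_trans (le_of_eq ?_) p2'
        congr 1
        funext ω
        ring) hu0 hu01 htail hAm
    have h2 : ∫ ω in {ω | X ω < -(1 / 2)}, (Real.log (1 + X ω)) ^ 2 ∂P =
        ∫ ω in {ω | X ω < -(1 / 2)}, (max (-Real.log (1 + X ω)) 0) ^ 2 ∂P := by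
      refine setIntegral_congr_fun hAm fun ω hω => ?_
      simp only [Set.mem_ofPred_eq] at hω
      have h3 : Real.log (1 + X ω) ≤ 0 := Real.log_nonpos (hpos ω).le (by linarith)
      rw [max_eq_left (by linarith), neg_sq]
    rw [h2]
    refine h1.trans ?_
    -- the three terms
    have t1 : (L ^ (20 * e0)) ^ 2 * P.real {ω | X ω < -(1 / 2)} ≤ 1 / 3 * L ^ (-(3 / 2) : ℝ) := by
      calc (L ^ (20 * e0)) ^ 2 * P.real {ω | X ω < -(1 / 2)}
          ≤ (L ^ (20 * e0)) ^ 2 * (16 * (C1 * L ^ (4 * e0 - 2))) := by gcongr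
        _ = 1 / 3 * (48 * C1) * L ^ (44 * e0 - 2) := by
            rw [← Real.rpow_natCast (L ^ (20 * e0)), ← Real.rpow_mul hLpos.le,
              show 44 * e0 - 2 = 20 * e0 * ((2 : ℕ) : ℝ) + (4 * e0 - 2) by push_cast; ring,
              Real.rpow_add hLpos]
            ring
        _ ≤ 1 / 3 * L ^ (1 / 2 - 44 * e0) * L ^ (44 * e0 - 2) := by gcongr
        _ = 1 / 3 * L ^ (-(3 / 2) : ℝ) := by
            rw [mul_assoc, ← Real.rpow_add hLpos]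
            congr 2
            ring
    have t2 : C4 * Real.exp (-((L ^ (20 * e0)) ^ (1 / 20 : ℝ))) ≤ 1 / 3 * L ^ (-(3 / 2) : ℝ) := by
      rw [← Real.rpow_mul hLpos.le, show 20 * e0 * (1 / 20 : ℝ) = e0 by ring]
      have h4 : L ^ (-(3 / 2) : ℝ) * L ^ (3 / 2 : ℝ) = 1 := by
        rw [← Real.rpow_add hLpos]; norm_num
      calc C4 * Real.exp (-(L ^ e0)) = 1 / 3 * (3 * C4 * ((L ^ (-(3 / 2) : ℝ) * L ^ (3 / 2 : ℝ)) *
            Real.exp (-(L ^ e0)))) := by rw [h4]; ring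
        _ = 1 / 3 * L ^ (-(3 / 2) : ℝ) * (3 * C4 * (L ^ (3 / 2 : ℝ) * Real.exp (-(L ^ e0)))) := by ring
        _ ≤ 1 / 3 * L ^ (-(3 / 2) : ℝ) * 1 := by gcongr
        _ = _ := mul_one _
    have t3 : Real.sqrt ((C3 / s2) ^ 200) * Real.exp (-(((t : ℝ) ^ (1 / 8 : ℝ)) ^ (1 / 10 : ℝ)) / 2) ≤
        1 / 3 * L ^ (-(3 / 2) : ℝ) := by
      have h4 : Real.sqrt ((C3 / s2) ^ 200) = (C3 * (1 / s2)) ^ 100 := by
        rw [show (C3 / s2) ^ 200 = ((C3 * (1 / s2)) ^ 100) ^ 2 by rw [← pow_mul]; congr 1; ring]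
        exact Real.sqrt_sq (by positivity)
      have h5 : Real.exp ((1 / s2) ^ (1 / 20 : ℝ) / 40 - 1 / 80) ≤
          ((t : ℝ) ^ (1 / 8 : ℝ)) ^ (1 / 10 : ℝ) := by
        rw [← Real.rpow_mul ht0.le]
        refine le_trans (le_of_eq ?_) (htp (1 / 8 * (1 / 10)) (by norm_num))
        congr 1
        ring
      have h6 : (1 / s2) ^ (-(3 / 2) : ℝ) ≤ L ^ (-(3 / 2) : ℝ) :=
        Real.rpow_le_rpow_of_nonpos hLpos tm2 (by norm_num)
      have h7 : (1 / s2) ^ (-(3 / 2) : ℝ) * (1 / s2) ^ (3 / 2 : ℝ) = 1 := by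
        rw [← Real.rpow_add hz]; norm_num
      rw [h4]
      calc (C3 * (1 / s2)) ^ 100 * Real.exp (-(((t : ℝ) ^ (1 / 8 : ℝ)) ^ (1 / 10 : ℝ)) / 2)
          ≤ (C3 * (1 / s2)) ^ 100 *
            Real.exp (-(Real.exp ((1 / s2) ^ (1 / 20 : ℝ) / 40 - 1 / 80)) / 2) := by
            gcongr
        _ = 1 / 3 * ((1 / s2) ^ (-(3 / 2) : ℝ) * (1 / s2) ^ (3 / 2 : ℝ)) * (3 * ((C3 * (1 / s2)) ^ 100 *
            Real.exp (-(Real.exp ((1 / s2) ^ (1 / 20 : ℝ) / 40 - 1 / 80)) / 2))) := by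
            rw [h7]; ring
        _ = 1 / 3 * (1 / s2) ^ (-(3 / 2) : ℝ) * (3 * (1 / s2) ^ (3 / 2 : ℝ) * ((C3 * (1 / s2)) ^ 100 *
            Real.exp (-(Real.exp ((1 / s2) ^ (1 / 20 : ℝ) / 40 - 1 / 80)) / 2))) := by ring
        _ ≤ 1 / 3 * (1 / s2) ^ (-(3 / 2) : ℝ) * 1 := by gcongr
        _ ≤ 1 / 3 * L ^ (-(3 / 2) : ℝ) := by rw [mul_one]; gcongr
    linarith
  -- the logarithm
  have pe : ∀ a b : ℝ, a ≤ b → L ^ a ≤ L ^ b := fun a b hab => Real.rpow_le_rpow_of_exponent_le hL1' hab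
  have pp : ∀ a : ℝ, 0 < L ^ a := fun a => Real.rpow_pos_of_pos hLpos a
  have hC1' : 0 < C1 := by linarith
  have hC5' : 0 < C5 := by linarith
  have hv1 : C1 * L ^ (2 * e0 - 1) ≤ 1 := by
    calc C1 * L ^ (2 * e0 - 1) ≤ L ^ (1 - 2 * e0) * L ^ (2 * e0 - 1) := by
          have := pp (2 * e0 - 1)
          gcongr
      _ = 1 := by rw [← Real.rpow_add hLpos]; norm_num
  have hf1 : C1 * L ^ (4 * e0 - 2) ≤ 1 := by
    calc C1 * L ^ (4 * e0 - 2) ≤ L ^ (2 - 4 * e0) * L ^ (4 * e0 - 2) := by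
          have := pp (4 * e0 - 2)
          gcongr
      _ = 1 := by rw [← Real.rpow_add hLpos]; norm_num
  obtain ⟨g1, g2, g3⟩ := hG Ω P X (C1 * L ^ (2 * e0 - 1)) (C1 * L ^ (4 * e0 - 2)) (L ^ (-(3 / 2) : ℝ))
    hXm hXgt hXi hX0 b1 hv1 b2 hf1 hLn32.le (p1.mono_exponent (by norm_num)) hτ
  have q1 : Real.sqrt (C1 * L ^ (2 * e0 - 1) * (C1 * L ^ (4 * e0 - 2))) ≤ C1 * L ^ (3 * e0 - 3 / 2) := by
    rw [Real.sqrt_le_left (by have := pp (3 * e0 - 3 / 2); positivity)]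
    refine le_of_eq ?_
    rw [mul_pow, ← Real.rpow_natCast (L ^ (3 * e0 - 3 / 2)), ← Real.rpow_mul hLpos.le,
      show (3 * e0 - 3 / 2) * ((2 : ℕ) : ℝ) = (2 * e0 - 1) + (4 * e0 - 2) by push_cast; ring,
      Real.rpow_add hLpos]
    ring
  have q2 : Real.sqrt (C1 * L ^ (4 * e0 - 2) * L ^ (-(3 / 2) : ℝ)) ≤ C1 * L ^ (e0 - 1) := by
    rw [Real.sqrt_le_left (by have := pp (e0 - 1); positivity)]
    calc C1 * L ^ (4 * e0 - 2) * L ^ (-(3 / 2) : ℝ) = C1 * L ^ ((4 * e0 - 2) + (-(3 / 2))) := by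
          rw [mul_assoc, ← Real.rpow_add hLpos]
      _ ≤ C1 ^ 2 * L ^ (2 * e0 - 2) := by
          have h1 : C1 ≤ C1 ^ 2 := by nlinarith
          have h2 := pe ((4 * e0 - 2) + (-(3 / 2))) (2 * e0 - 2) (by linarith)
          have := pp ((4 * e0 - 2) + (-(3 / 2)))
          gcongr
      _ = (C1 * L ^ (e0 - 1)) ^ 2 := by
          rw [mul_pow, ← Real.rpow_natCast (L ^ (e0 - 1)), ← Real.rpow_mul hLpos.le]
          congr 2
          push_cast
          ring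
  have hCbig : (2 : ℝ) ≤ 3 * (C5 * C1) + C1 + 2 := by nlinarith [mul_pos hC5' hC1']
  refine ⟨⟨?_, ?_⟩, fun hLow => ?_⟩
  · exact p1.mono_exponent (by norm_num)
  · have h1 := pe (-(3 / 2)) (2 * e0 - 1) (by linarith)
    have h2 := pp (2 * e0 - 1)
    refine g1.trans ?_
    nlinarith [mul_pos hC5' hC1']
  obtain ⟨b4', -⟩ := b3 hLow
  have b4 : |∫ ω, X ω ^ 2 ∂P - Real.log (L / L')| ≤ C1 * L ^ (e0 - 1) := b4'
  constructor
  · change |∫ ω, Real.log (1 + X ω) ∂P + 1 / 2 * Real.log (L / L')| ≤ _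
    have h1 := pe (3 * e0 - 3 / 2) (e0 - 1) (by linarith)
    have h2 := pe (4 * e0 - 2) (e0 - 1) (by linarith)
    have h3 := pp (e0 - 1)
    have h4 : C5 * (Real.sqrt (C1 * L ^ (2 * e0 - 1) * (C1 * L ^ (4 * e0 - 2))) + C1 * L ^ (4 * e0 - 2) +
        Real.sqrt (C1 * L ^ (4 * e0 - 2) * L ^ (-(3 / 2) : ℝ))) ≤ 3 * (C5 * C1) * L ^ (e0 - 1) := by
      have h5 : C1 * L ^ (3 * e0 - 3 / 2) ≤ C1 * L ^ (e0 - 1) := by gcongr
      have h6 : C1 * L ^ (4 * e0 - 2) ≤ C1 * L ^ (e0 - 1) := by gcongr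
      calc _ ≤ C5 * (C1 * L ^ (e0 - 1) + C1 * L ^ (e0 - 1) + C1 * L ^ (e0 - 1)) := by
            gcongr
            exact q1.trans h5
        _ = _ := by ring
    have h7 := g2.trans h4
    rw [abs_le] at h7 b4 ⊢
    have h8 : 0 ≤ C1 * L ^ (e0 - 1) := by positivity
    have h9 : (3 * (C5 * C1) + C1 + 2) * L ^ (e0 - 1) = 3 * (C5 * C1) * L ^ (e0 - 1) +
        C1 * L ^ (e0 - 1) + 2 * L ^ (e0 - 1) := by ring
    rw [h9]
    constructor <;> linarith [h7.1, h7.2, b4.1, b4.2]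
  · have hLd : L ^ (2 * e0 - 1) ≤ Real.log (L / L') := by
      have hL'0 : 0 < L' := by linarith
      have h1 := Real.one_sub_inv_le_log_of_pos (div_pos hLpos hL'0)
      rw [inv_div] at h1
      refine le_trans ?_ h1
      have h2 : L ^ (2 * e0 - 1) = L ^ (2 * e0) / L := by
        rw [Real.rpow_sub hLpos, Real.rpow_one]
      rw [h2, div_le_iff₀ hLpos]
      have h3 : (1 - L' / L) * L = L - L' := by field_simp
      rw [h3]
      linarith
    have h1 : C1 * L ^ (e0 - 1) ≤ 1 / 4 * L ^ (2 * e0 - 1) := by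
      calc C1 * L ^ (e0 - 1) = 1 / 4 * ((4 * C1) * L ^ (e0 - 1)) := by ring
        _ ≤ 1 / 4 * (L ^ e0 * L ^ (e0 - 1)) := by
            have := pp (e0 - 1)
            gcongr
        _ = 1 / 4 * L ^ (2 * e0 - 1) := by
            rw [← Real.rpow_add hLpos]; congr 2; ring
    have h2 : C5 * (Real.sqrt (C1 * L ^ (2 * e0 - 1) * (C1 * L ^ (4 * e0 - 2))) + C1 * L ^ (4 * e0 - 2) +
        (C1 * L ^ (2 * e0 - 1)) ^ 2 + L ^ (-(3 / 2) : ℝ)) ≤ 1 / 4 * L ^ (2 * e0 - 1) := by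
      have k1 := pe (4 * e0 - 2) (3 * e0 - 3 / 2) (by linarith)
      have k2 : (C1 * L ^ (2 * e0 - 1)) ^ 2 ≤ C1 ^ 2 * L ^ (3 * e0 - 3 / 2) := by
        rw [mul_pow, ← Real.rpow_natCast (L ^ (2 * e0 - 1)), ← Real.rpow_mul hLpos.le,
          show (2 * e0 - 1) * ((2 : ℕ) : ℝ) = 4 * e0 - 2 by push_cast; ring]
        gcongr
      have k3 := pe (-(3 / 2)) (3 * e0 - 3 / 2) (by linarith)
      have k4 : L ^ (3 * e0 - 3 / 2) = L ^ (2 * e0 - 1) * L ^ (e0 - 1 / 2) := by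
        rw [← Real.rpow_add hLpos]; congr 1; ring
      have k5 : L ^ (1 / 2 - e0) * L ^ (e0 - 1 / 2) = 1 := by
        rw [← Real.rpow_add hLpos]; norm_num
      calc _ ≤ C5 * (C1 * L ^ (3 * e0 - 3 / 2) + C1 * L ^ (3 * e0 - 3 / 2) +
            C1 ^ 2 * L ^ (3 * e0 - 3 / 2) + L ^ (3 * e0 - 3 / 2)) := by gcongr
        _ = 1 / 4 * (4 * C5 * (2 * C1 + C1 ^ 2 + 1)) * (L ^ (2 * e0 - 1) * L ^ (e0 - 1 / 2)) := by
            rw [← k4]; ring
        _ ≤ 1 / 4 * L ^ (1 / 2 - e0) * (L ^ (2 * e0 - 1) * L ^ (e0 - 1 / 2)) := by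
            have := pp (2 * e0 - 1)
            have := pp (e0 - 1 / 2)
            gcongr
        _ = 1 / 4 * L ^ (2 * e0 - 1) * (L ^ (1 / 2 - e0) * L ^ (e0 - 1 / 2)) := by ring
        _ = _ := by rw [k5, mul_one]
    have h3 : 1 / (3 * (C5 * C1) + C1 + 2) * L ^ (2 * e0 - 1) ≤ 1 / 2 * L ^ (2 * e0 - 1) := by
      have := pp (2 * e0 - 1)
      gcongr
    have b5 := (abs_le.1 b4).1
    change _ ≤ ∫ ω, (Real.log (1 + X ω) - ∫ ω', Real.log (1 + X ω') ∂P) ^ 2 ∂P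
    refine le_trans ?_ g3
    linarith

end Pool.Agent.H707.CW
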